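import Pool.Agent.Helper72.PG.CandT
import Pool.Agent.Helper85.LC.Tfae

/-! MP_12a1af_nt: rules with look-ahead `h`: a power of `n` exactly when `h` is bounded. -/

namespace Pool.Agent.Helper85.LC

open Finset Filter Pool.Agent.Helper72.NS

/-- Look-ahead `h` gives a power of `n` if and only if `h` is bounded. -/
theorem tfaeE (h : ℕ → ℕ) (hh : Monotone h) : List.TFAE [
    BddAbove (Set.range h),
    ∀ Q : ℕ, ∃ c : ℝ, 0 < c ∧ ∃ C : ℕ,
      ∀ (A D : Set ℕ) (m f : ℕ → ℕ) (a k y : ℕ), Chain m → (∀ j, m (j + 1) ≤ Q * m j) →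
      C ≤ y → (m k : ℝ) ≤ (y : ℝ) ^ c →
      ({n : ℕ | n < y ∧ n % m k = a % m k ∧ n ∉ D}.ncard : ℝ) ≤ (y : ℝ) ^ c →
      (∀ n ∈ D, f n ≤ n ∧ f n ∈ A ∧ n - f n ∈ A) →
      (∀ j, ∀ n ∈ D, ∀ n' ∈ D, n % m (j + h j) = n' % m (j + h j) → f n % m j = f n' % m j) →
      (y : ℝ) ^ (1 + 2 * c) ≤ ∑ n ∈ Finset.range y, (rep A n : ℝ) ^ 2 ∧
      ∃ n < y, (y : ℝ) ^ c ≤ rep A n,
    ∃ c : ℝ, 0 < c ∧ ∀ (A : Set ℕ) (f : ℕ → ℕ),
      (∀ n, f n ≤ n ∧ f n ∈ A ∧ n - f n ∈ A) →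
      (∀ j n n', n % 2 ^ (j + h j) = n' % 2 ^ (j + h j) → f n % 2 ^ j = f n' % 2 ^ j) →
      ∃ᶠ n : ℕ in atTop, (n : ℝ) ^ c ≤ rep A n] := by
  tfae_have 1 → 2 := by
    rintro ⟨H, hH⟩ Q
    obtain ⟨c, hc, C, hC⟩ := Pool.Agent.Helper72.PG.candE Q H
    refine ⟨c, hc, C, fun A D m f a k y hm hQ hy hmk hD hf hrule => ?_⟩
    refine hC A D m f a k y hm hQ hy hmk hD hf fun j n hn n' hn' he => hrule j n hn n' hn' ?_
    have hle : h j ≤ H := hH ⟨j, rfl⟩
    have hd : m (j + h j) ∣ m (j + H) := dvd_of_le' hm (by omega)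
    rw [← Nat.mod_mod_of_dvd n hd, ← Nat.mod_mod_of_dvd n' hd, he]
  tfae_have 2 → 3 := by
    intro h2
    obtain ⟨c, hc, C, hC⟩ := h2 2
    refine ⟨c, hc, fun A f hf hrule => ?_⟩
    rw [Filter.frequently_atTop]
    intro N
    -- choose `y` so large that `y ^ c > N + 1`
    have ht : Tendsto (fun y : ℕ => (y : ℝ) ^ c) atTop atTop :=
      (tendsto_rpow_atTop hc).comp tendsto_natCast_atTop_atTop
    obtain ⟨Y, hY⟩ := (ht.eventually_gt_atTop ((N : ℝ) + 1)).exists_forall_of_atTop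
    have hy := hY _ (le_max_left Y C)
    have hy1 : (1 : ℝ) ≤ ((max Y C : ℕ) : ℝ) ^ c := by
      have : (0 : ℝ) ≤ N := Nat.cast_nonneg N
      linarith
    obtain ⟨n, hn, hr⟩ := (hC A Set.univ (fun j => 2 ^ j) f 0 0
      (max Y C) chain_two (fun j => by
        show 2 ^ (j + 1) ≤ 2 * 2 ^ j
        rw [pow_succ]; omega)
      (le_max_right _ _) (by simpa using hy1)
      (by simpa using (zero_le_one.trans hy1)) (fun n _ => hf n)
      (fun j n _ n' _ he => hrule j n n' he)).2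
    refine ⟨n, ?_, ?_⟩
    · by_contra hlt
      push Not at hlt
      have h1 : (rep A n : ℝ) ≤ (n : ℝ) + 1 := by exact_mod_cast rep_le A n
      have h2 : (n : ℝ) ≤ N := by exact_mod_cast hlt.le
      linarith
    · refine le_trans (Real.rpow_le_rpow (Nat.cast_nonneg n) ?_ hc.le) hr
      exact_mod_cast hn.le
  tfae_have 3 → 1 := by
    rintro ⟨c, hc, h3⟩
    by_contra hb
    have htend : Tendsto h atTop atTop := by
      refine Filter.tendsto_atTop_atTop_of_monotone hh fun b => ?_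
      by_contra hcon
      push Not at hcon
      exact hb ⟨b, by rintro _ ⟨j, rfl⟩; exact (hcon j).le⟩
    obtain ⟨A, f, hf, hrule, hsm⟩ := Pool.Agent.Helper72.PG.sharp h htend
    have hev := hsm (c / 2) (by positivity)
    have h1 : ∀ᶠ n : ℕ in atTop, (1 : ℝ) < n := by
      filter_upwards [Filter.eventually_gt_atTop 1] with n hn
      exact_mod_cast hn
    obtain ⟨n, hn, hle, hn1⟩ := ((h3 A f hf hrule).and_eventually (hev.and h1)).exists
    have : (n : ℝ) ^ (c / 2) < (n : ℝ) ^ c := Real.rpow_lt_rpow_of_exponent_lt hn1 (by linarith)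
    linarith
  tfae_finish

end Pool.Agent.Helper85.LC
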